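import Pool.Agent.helper17.MK.Spec

/-!
# Four clusters: row MB
-/

set_option autoImplicit false

namespace Pool.Agent.MK

open Finset Real Pool.Agent.helper39.MT Pool.Agent.helper85.FC

theorem MB_tel (N : ℕ) (hN : 4 ≤ N) : ∀ M : ℕ, N ≤ M →
    ∑ n ∈ Ico N M, (1 / ((n : ℝ) - 1)) ^ 2 ≤ 1 / ((N : ℝ) - 2) - 1 / ((M : ℝ) - 2) := by
  intro M hM
  induction M, hM using Nat.le_induction with
  | base => simp
  | succ M hM ih =>
    rw [sum_Ico_succ_top hM]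
    have hM4 : (4 : ℝ) ≤ M := by exact_mod_cast hN.trans hM
    have h1 : (1 / ((M : ℝ) - 1)) ^ 2 ≤ 1 / ((M : ℝ) - 2) - 1 / (((M + 1 : ℕ) : ℝ) - 2) := by
      push_cast
      have h2 : (0 : ℝ) < M - 2 := by linarith
      have h3 : (0 : ℝ) < M - 1 := by linarith
      have h4 : 1 / ((M : ℝ) - 2) - 1 / ((M : ℝ) + 1 - 2) = 1 / (((M : ℝ) - 2) * (M - 1)) := by
        have : (M : ℝ) + 1 - 2 = M - 1 := by ring
        rw [this]
        field_simp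
        ring
      rw [h4, one_div, one_div, inv_pow]
      refine inv_anti₀ (mul_pos h2 h3) ?_
      nlinarith
    linarith

theorem MB_sum (w : ℝ) (hw : 4 ≤ w) (T : Finset ℕ) (hT : ∀ n ∈ T, w < (n : ℝ)) :
    ∑ n ∈ T, (1 / ((n : ℝ) - 1)) ^ 2 ≤ 2 / w := by
  have hN : 4 ≤ ⌊w⌋₊ + 1 := by
    have : 4 ≤ ⌊w⌋₊ := Nat.le_floor (by exact_mod_cast hw)
    omega
  obtain ⟨M, hM⟩ : ∃ M : ℕ, ⌊w⌋₊ + 1 ≤ M ∧ ∀ n ∈ T, n < M := by
    refine ⟨max (⌊w⌋₊ + 1) (T.sup id + 1), le_max_left _ _, fun n hn => ?_⟩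
    have : n ≤ T.sup id := le_sup (f := id) hn
    exact lt_of_lt_of_le (Nat.lt_succ_of_le this) (le_max_right _ _)
  have hsub : T ⊆ Ico (⌊w⌋₊ + 1) M := by
    intro n hn
    rw [mem_Ico]
    refine ⟨?_, hM.2 n hn⟩
    exact (Nat.floor_lt (by linarith)).2 (hT n hn)
  have h1 := MB_tel _ hN M hM.1
  have h2 : ∑ n ∈ T, (1 / ((n : ℝ) - 1)) ^ 2 ≤ ∑ n ∈ Ico (⌊w⌋₊ + 1) M, (1 / ((n : ℝ) - 1)) ^ 2 :=
    sum_le_sum_of_subset_of_nonneg hsub fun _ _ _ => sq_nonneg _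
  have h3 : (0 : ℝ) ≤ 1 / ((M : ℝ) - 2) := by
    have : (4 : ℝ) ≤ M := by exact_mod_cast hN.trans hM.1
    exact div_nonneg zero_le_one (by linarith)
  have h4 : w - 1 < (⌊w⌋₊ : ℝ) := Nat.sub_one_lt_floor w
  have h5 : 1 / (((⌊w⌋₊ + 1 : ℕ) : ℝ) - 2) ≤ 2 / w := by
    push_cast
    rw [div_le_div_iff₀ (by linarith) (by linarith)]
    linarith
  linarith

theorem MB_PD (hPD : PD_stmt) (h : ℕ) : ∃ a₁ : ℝ, ∀ a : ℝ, a₁ ≤ a → ∀ W R : ℕ,
    R = ⌊Real.exp (a / 4)⌋₊ →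
    ∏ p : PS W R, (1 + (h : ℝ) / (((p : ℕ) : ℝ) - 1)) ≤ a ^ (h + 1) := by
  obtain ⟨C, hC, hCp⟩ := hPD h
  refine ⟨max 4 C, fun a ha W R hR => ?_⟩
  have ha4 : 4 ≤ a := (le_max_left _ _).trans ha
  have haC : C ≤ a := (le_max_right _ _).trans ha
  have he : (2 : ℝ) ≤ Real.exp (a / 4) := by
    have := Real.add_one_le_exp (a / 4)
    linarith
  have hR2 : 2 ≤ R := by
    rw [hR]
    exact Nat.le_floor (by exact_mod_cast he)
  have hlog : Real.log R ≤ a := by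
    have h1 : (R : ℝ) ≤ Real.exp (a / 4) := by
      rw [hR]
      exact Nat.floor_le (Real.exp_pos _).le
    have h2 : Real.log R ≤ a / 4 := by
      rw [Real.log_le_iff_le_exp (by positivity)]
      exact h1
    linarith
  have hlog0 : 0 ≤ Real.log R := Real.log_nonneg (by exact_mod_cast (by omega : 1 ≤ R))
  calc ∏ p : PS W R, (1 + (h : ℝ) / (((p : ℕ) : ℝ) - 1)) ≤ C * Real.log R ^ h := hCp W R hR2
    _ ≤ a * a ^ h := mul_le_mul haC (pow_le_pow_left₀ hlog0 hlog h) (by positivity) (by linarith)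
    _ = a ^ (h + 1) := by rw [pow_succ']

theorem MB_mass {k : ℕ} (p : ℝ) : ∑ x : Option (Fin k), mu0 p x = 1 := by
  rw [Fintype.sum_option]
  simp only [mu0, sum_const, card_univ, Fintype.card_fin, nsmul_eq_mul]
  ring

theorem MB_PP {w z : ℝ} {n : ℕ} : n ∈ RLS.PP w z ↔ n ≤ ⌊z⌋₊ ∧ n.Prime ∧ w < (n : ℝ) := by
  unfold RLS.PP
  rw [mem_filter, mem_range, Nat.lt_succ_iff]

theorem MB_big {k D₀ W R : ℕ} (hD : 4 * k + 4 ≤ D₀)
    (hs : ∀ p : ℕ, p.Prime → p ≤ D₀ → p ∣ W) (p : PS W R) : 4 * k + 5 ≤ (p : ℕ) := by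
  have hp := mem_PS.1 p.2
  by_contra h
  exact hp.2.2 (hs p hp.2.1 (by omega))

theorem MB_Ex0 {ι : Type} [Fintype ι] [DecidableEq ι] {k : ℕ} (μ : ι → Option (Fin k) → ℝ)
    (hμ : ∀ p x, 0 ≤ μ p x) (X : (ι → Option (Fin k)) → ℝ) (hX : ∀ e, 0 ≤ X e) : 0 ≤ Ex μ X :=
  sum_nonneg fun e _ => mul_nonneg (prod_nonneg fun p _ => hμ p _) (hX e)

theorem MB_c3 (P : Finset ℕ) : 0 ≤ Mn c3 gi P ∧ Mn c3 gi P ≤ ∏ p ∈ P, (1 + 1 / (p : ℝ)) := by
  have h0 : ∀ K : Finset ℕ, 0 ≤ ∏ p ∈ K, gi p := fun K =>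
    prod_nonneg fun p _ => div_nonneg zero_le_one (Nat.cast_nonneg p)
  constructor
  · refine sum_nonneg fun K _ => mul_nonneg ?_ (h0 K)
    unfold c3
    split_ifs <;> norm_num
  · rw [Finset.prod_one_add]
    refine sum_le_sum fun K _ => ?_
    have h1 : c3 K ≤ 1 := by
      unfold c3
      split_ifs <;> norm_num
    calc c3 K * ∏ p ∈ K, gi p ≤ 1 * ∏ p ∈ K, gi p := mul_le_mul_of_nonneg_right h1 (h0 K)
      _ = ∏ p ∈ K, 1 / (p : ℝ) := by rw [one_mul]; rfl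

theorem MB_filt {W R : ℕ} {w : ℝ} (hwR : ⌊w⌋₊ ≤ R) (f : ℕ → ℝ) :
    ∏ p ∈ univ.filter (fun p : PS W R => prP W R p ∈ RLS.PP 1 w), f (prP W R p) =
      ∏ p ∈ PS W ⌊w⌋₊, f p := by
  refine prod_bij (fun p _ => (p : ℕ)) ?_ ?_ ?_ ?_
  · intro p hp
    have h1 := MB_PP.1 (mem_filter.1 hp).2
    have h2 := mem_PS.1 p.2
    exact mem_PS.2 ⟨h1.1, h2.2.1, h2.2.2⟩
  · intro p _ q _ h
    exact Subtype.ext h
  · intro n hn
    have h1 := mem_PS.1 hn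
    refine ⟨⟨n, mem_PS.2 ⟨h1.1.trans hwR, h1.2⟩⟩, ?_, rfl⟩
    rw [mem_filter]
    refine ⟨mem_univ _, MB_PP.2 ⟨h1.1, h1.2.1, ?_⟩⟩
    exact_mod_cast h1.2.1.one_lt
  · intro p _
    rfl

theorem MB_SU0 {ι : Type} [Fintype ι] [DecidableEq ι] {k : ℕ} (pr : ι → ℕ) (l : Finset ℕ → ℝ)
    (P : Finset ℕ) (m m' : Fin k) (h : ∀ T ⊆ P, 0 ≤ Sg l T) (e : ι → Option (Fin k)) :
    0 ≤ SU pr l P m m' e := h _ inter_subset_right

theorem MB_prod1 (P : Finset ℕ) (hP : ∀ p ∈ P, 1 ≤ p) : 1 ≤ ∏ p ∈ P, (p : ℝ) ∧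
    ∀ K ⊆ P, ∏ p ∈ K, (p : ℝ) ≤ ∏ p ∈ P, (p : ℝ) := by
  have h1 : ∀ K ⊆ P, ∏ p ∈ K, (p : ℝ) ≤ ∏ p ∈ P, (p : ℝ) := fun K hK =>
    Finset.prod_le_prod_of_subset_of_one_le hK (fun p _ => Nat.cast_nonneg p)
      (fun p hp _ => by exact_mod_cast hP p hp)
  refine ⟨?_, h1⟩
  have := h1 ∅ (empty_subset _)
  rwa [prod_empty] at this

theorem MB_X2 (hEV : EV_stmt) (hIN : IN_stmt) {k W R : ℕ} {w a : ℝ} (hw4 : 4 ≤ w)
    (hw8 : w ≤ Real.exp (a / 8)) (hWw : (W : ℝ) ≤ w) (hW0 : 0 < W)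
    (hR : R = ⌊Real.exp (a / 4)⌋₊) (ha : 0 ≤ a) (hbig : ∀ p : PS W R, 4 * k + 5 ≤ (p : ℕ))
    (l : Finset ℕ → ℝ) (m m' : Fin k) (hm : m ≠ m') (P P' : Finset ℕ) (U U' Z1 Z2 Y₂ Y₃ : ℝ)
    (hP : P ⊆ RLS.PP w (Real.exp (a / 8)))
    (hP' : P' ⊆ RLS.PP (Real.exp (a / 8)) (Real.exp (a / 5)))
    (hl0 : ∀ T ⊆ P, 0 ≤ Sg l T) (hU : Mn l gi P ≤ U) (hU' : Mn c3 gi P' ≤ U')
    (hZ1 : ∏ p : PS W R, (1 + (k : ℝ) / (((p : ℕ) : ℝ) - 1)) ≤ Z1)
    (hZ2 : ∏ p : PS W R, (1 + ((1 : ℕ) : ℝ) / (((p : ℕ) : ℝ) - 1)) ≤ Z2)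
    (E2 : Expn (prP W R) (fun p i => i = m ∧ prP W R p ∈ P) 1 1 Y₂ (SU (prP W R) l P m m))
    (E3 : Expn (prP W R) (fun p i => i = m' ∧ prP W R p ∈ P) 1 1 Y₂ (SU (prP W R) l P m' m'))
    (E4 : Expn (prP W R) (fun p i => i = m' ∧ prP W R p ∈ P') 1 1 Y₃ (SU (prP W R) c3 P' m' m'))
    (E5 : Expn (prP W R) (fun p i => (i = m ∨ i = m') ∧ prP W R p ∈ P) 1 3 (Y₂ ^ 2)
      (fun e => SU (prP W R) l P m m e * SU (prP W R) l P m' m' e)) :
    0 ≤ Ex (fun p : PS W R => mu0 (p : ℝ)) (fun e => SU (prP W R) l P m m e *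
      SU (prP W R) l P m' m' e * SU (prP W R) c3 P' m' m' e) ∧
    0 ≤ U ^ 2 * U' ∧
    Ex (fun p : PS W R => mu0 (p : ℝ)) (fun e => SU (prP W R) l P m m e *
      SU (prP W R) l P m' m' e * SU (prP W R) c3 P' m' m' e) ≤
      U ^ 2 * U' + Z1 ^ 2 * ((k : ℝ) ^ 2 * (2 / w)) * Z2 := by
  have hk0 : (0 : ℝ) ≤ k := Nat.cast_nonneg k
  have hbigR : ∀ p : PS W R, (4 : ℝ) * k + 5 ≤ ((p : ℕ) : ℝ) := fun p => by
    exact_mod_cast hbig p
  have hmu : ∀ (p : PS W R) (x : Option (Fin k)), 0 ≤ mu0 ((p : ℕ) : ℝ) x := by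
    intro p x
    have h1 := hbigR p
    rcases x with _ | i
    · simp only [mu0]
      rw [sub_nonneg, div_le_one (by linarith)]
      linarith
    · simp only [mu0]
      exact div_nonneg zero_le_one (by linarith)
  have hinP : ∀ (v : ℝ) (z : ℝ) (n : ℕ), w ≤ v → z ≤ a / 4 → n ∈ RLS.PP v (Real.exp z) →
      ∃ p : PS W R, prP W R p = n := by
    intro v z n hv hz hn
    obtain ⟨h1, h2, h3⟩ := MB_PP.1 hn
    refine ⟨⟨n, mem_PS.2 ⟨?_, h2, fun h4 => ?_⟩⟩, rfl⟩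
    · rw [hR]
      exact h1.trans (Nat.floor_le_floor (Real.exp_le_exp.2 hz))
    · have h5 : (n : ℝ) ≤ W := by exact_mod_cast Nat.le_of_dvd hW0 h4
      linarith
  have hEA : ∀ m₁ : Fin k, Ex (fun p : PS W R => mu0 (p : ℝ)) (SU (prP W R) l P m₁ m₁) = Mn l gi P := by
    intro m₁
    refine hEV _ k (prP W R) l P m₁ m₁ _ gi Subtype.val_injective (fun p => MB_mass _)
      (fun n hn => hinP w (a / 8) n le_rfl (by linarith) (hP hn)) (fun p => ?_)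
    rw [if_pos rfl]
    rfl
  have hED : Ex (fun p : PS W R => mu0 (p : ℝ)) (SU (prP W R) c3 P' m' m') = Mn c3 gi P' := by
    refine hEV _ k (prP W R) c3 P' m' m' _ gi Subtype.val_injective (fun p => MB_mass _)
      (fun n hn => hinP _ (a / 5) n hw8 (by linarith) (hP' hn)) (fun p => ?_)
    rw [if_pos rfl]
    rfl
  have hc3 := MB_c3 P'
  have hD2 : Mn c3 gi P' ≤ Z2 := by
    refine hc3.2.trans (le_trans ?_ hZ2)
    have h1 : ∏ p : PS W R, (1 + ((1 : ℕ) : ℝ) / (((p : ℕ) : ℝ) - 1)) =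
        ∏ p ∈ PS W R, (1 + ((1 : ℕ) : ℝ) / ((p : ℝ) - 1)) :=
      prod_coe_sort (PS W R) (fun p => (1 + ((1 : ℕ) : ℝ) / ((p : ℝ) - 1)))
    rw [h1]
    have hsub : P' ⊆ PS W R := by
      intro n hn
      obtain ⟨p, hp⟩ := hinP _ (a / 5) n hw8 (by linarith) (hP' hn)
      rw [← hp]
      exact p.2
    have hgt : ∀ p ∈ PS W R, (1 : ℝ) < (p : ℝ) := fun p hp => by
      exact_mod_cast (mem_PS.1 hp).2.1.one_lt
    calc ∏ p ∈ P', (1 + 1 / (p : ℝ)) ≤ ∏ p ∈ P', (1 + ((1 : ℕ) : ℝ) / ((p : ℝ) - 1)) := by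
          refine prod_le_prod (fun p hp => by positivity) (fun p hp => ?_)
          have := hgt p (hsub hp)
          rw [Nat.cast_one]
          have h2 : 1 / (p : ℝ) ≤ 1 / ((p : ℝ) - 1) :=
            one_div_le_one_div_of_le (by linarith) (by linarith)
          linarith
      _ ≤ ∏ p ∈ PS W R, (1 + ((1 : ℕ) : ℝ) / ((p : ℝ) - 1)) := by
          refine Finset.prod_le_prod_of_subset_of_one_le hsub (fun p hp => ?_) (fun p hp _ => ?_)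
          · have := hgt p (hsub hp)
            have h3 : 0 ≤ ((1 : ℕ) : ℝ) / ((p : ℝ) - 1) :=
              div_nonneg (Nat.cast_nonneg 1) (by linarith)
            linarith
          · have := hgt p hp
            have h3 : 0 ≤ ((1 : ℕ) : ℝ) / ((p : ℝ) - 1) :=
              div_nonneg (Nat.cast_nonneg 1) (by linarith)
            linarith
  have hA0 : 0 ≤ Mn l gi P := by
    rw [← hEA m]
    exact MB_Ex0 _ hmu _ (MB_SU0 _ l P m m hl0)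
  have hU0 : 0 ≤ U := hA0.trans hU
  have hU'0 : 0 ≤ U' := hc3.1.trans hU'
  have hq : ∀ (p : PS W R) (i : Fin k), 0 ≤ mu0 ((p : ℕ) : ℝ) (some i) ∧
      mu0 ((p : ℕ) : ℝ) (some i) ≤ 1 / (((p : ℕ) : ℝ) - 1) := by
    intro p i
    refine ⟨hmu p _, ?_⟩
    have h1 := hbigR p
    simp only [mu0]
    exact one_div_le_one_div_of_le (by linarith) (by linarith)
  -- the two factors with `l`
  have hAB := hIN _ k (prP W R) _ _ 1 1 1 1 Y₂ Y₂ _ _ (fun p : PS W R => mu0 (p : ℝ))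
    (fun p : PS W R => 1 / (((p : ℕ) : ℝ) - 1)) (univ.filter fun p : PS W R => w < ((p : ℕ) : ℝ))
    (fun p => MB_mass _) hq zero_le_one zero_le_one E2 E3 (by
      rintro p i j ⟨h1, h2⟩ ⟨h3, h4⟩
      refine ⟨?_, ?_⟩
      · rw [h1, h3]
        exact hm
      · rw [mem_filter]
        exact ⟨mem_univ _, (MB_PP.1 (hP h2)).2.2⟩)
  rw [hEA m, hEA m'] at hAB
  have hABD := hIN _ k (prP W R) _ _ 1 1 3 1 (Y₂ ^ 2) Y₃ _ _ (fun p : PS W R => mu0 (p : ℝ))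
    (fun p : PS W R => 1 / (((p : ℕ) : ℝ) - 1)) ∅
    (fun p => MB_mass _) hq zero_le_one zero_le_one E5 E4 (by
      rintro p i j ⟨h1, h2⟩ ⟨h3, h4⟩
      exfalso
      have h5 := (MB_PP.1 (hP h2)).1
      have h6 := (MB_PP.1 (hP' h4)).2.2
      have h7 : ((prP W R p : ℕ) : ℝ) ≤ Real.exp (a / 8) :=
        (Nat.le_floor_iff (Real.exp_pos _).le).1 h5
      linarith)
  rw [sum_empty, mul_zero, hED] at hABD
  have hABD' := sub_eq_zero.1 (abs_eq_zero.1 (le_antisymm hABD (abs_nonneg _)))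
  have hS : ∑ p ∈ univ.filter (fun p : PS W R => w < ((p : ℕ) : ℝ)),
      (1 / (((p : ℕ) : ℝ) - 1)) ^ 2 ≤ 2 / w := by
    have h1 := MB_sum w hw4 ((univ.filter (fun p : PS W R => w < ((p : ℕ) : ℝ))).image
      (fun p : PS W R => (p : ℕ))) (by
        intro n hn
        obtain ⟨p, hp, rfl⟩ := mem_image.1 hn
        exact (mem_filter.1 hp).2)
    rwa [sum_image (fun p _ q _ h => Subtype.ext h)] at h1
  have herr : Ex (fun p : PS W R => mu0 (p : ℝ)) (fun e => SU (prP W R) l P m m e *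
      SU (prP W R) l P m' m' e) ≤ Mn l gi P * Mn l gi P + Z1 ^ 2 * ((k : ℝ) ^ 2 * (2 / w)) := by
    have h1 := (abs_le.1 hAB).2
    have h2 : (1 : ℝ) * 1 * (∏ p : PS W R, (1 + (k : ℝ) * ((1 : ℕ) : ℝ) * (1 / (((p : ℕ) : ℝ) - 1)))) *
        (∏ p : PS W R, (1 + (k : ℝ) * ((1 : ℕ) : ℝ) * (1 / (((p : ℕ) : ℝ) - 1)))) *
        ∑ p ∈ univ.filter (fun p : PS W R => w < ((p : ℕ) : ℝ)),
          ((k : ℝ) * ((1 : ℕ) : ℝ) * (1 / (((p : ℕ) : ℝ) - 1))) *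
            ((k : ℝ) * ((1 : ℕ) : ℝ) * (1 / (((p : ℕ) : ℝ) - 1))) ≤
        Z1 ^ 2 * ((k : ℝ) ^ 2 * (2 / w)) := by
      have h3 : ∏ p : PS W R, (1 + (k : ℝ) * ((1 : ℕ) : ℝ) * (1 / (((p : ℕ) : ℝ) - 1))) =
          ∏ p : PS W R, (1 + (k : ℝ) / (((p : ℕ) : ℝ) - 1)) :=
        prod_congr rfl fun p _ => by rw [Nat.cast_one]; ring
      have h4 : ∑ p ∈ univ.filter (fun p : PS W R => w < ((p : ℕ) : ℝ)),
          ((k : ℝ) * ((1 : ℕ) : ℝ) * (1 / (((p : ℕ) : ℝ) - 1))) *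
            ((k : ℝ) * ((1 : ℕ) : ℝ) * (1 / (((p : ℕ) : ℝ) - 1))) =
          (k : ℝ) ^ 2 * ∑ p ∈ univ.filter (fun p : PS W R => w < ((p : ℕ) : ℝ)),
            (1 / (((p : ℕ) : ℝ) - 1)) ^ 2 := by
        rw [mul_sum]
        exact sum_congr rfl fun p _ => by rw [Nat.cast_one]; ring
      rw [h3, h4, one_mul, one_mul, ← sq]
      have h5 : 0 ≤ ∏ p : PS W R, (1 + (k : ℝ) / (((p : ℕ) : ℝ) - 1)) :=
        prod_nonneg fun p _ => by
          have := hbigR p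
          have h6 : 0 ≤ (k : ℝ) / (((p : ℕ) : ℝ) - 1) := div_nonneg hk0 (by linarith)
          linarith
      exact mul_le_mul (pow_le_pow_left₀ h5 hZ1 2) (mul_le_mul_of_nonneg_left hS (sq_nonneg _))
        (mul_nonneg (sq_nonneg _) (sum_nonneg fun _ _ => sq_nonneg _)) (sq_nonneg _)
    linarith
  refine ⟨MB_Ex0 _ hmu _ fun e => mul_nonneg (mul_nonneg (MB_SU0 _ l P m m hl0 e)
    (MB_SU0 _ l P m' m' hl0 e)) (MB_SU0 _ c3 P' m' m' (fun T _ => ?_) e), mul_nonneg (sq_nonneg _) hU'0,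
    ?_⟩
  · unfold Sg
    refine sum_nonneg fun K _ => ?_
    unfold c3
    split_ifs <;> norm_num
  · rw [hABD']
    have herr0 : 0 ≤ Z1 ^ 2 * ((k : ℝ) ^ 2 * (2 / w)) := by
      have : 0 ≤ 2 / w := by positivity
      positivity
    calc Ex (fun p : PS W R => mu0 (p : ℝ)) (fun e => SU (prP W R) l P m m e *
          SU (prP W R) l P m' m' e) * Mn c3 gi P'
        ≤ (Mn l gi P * Mn l gi P + Z1 ^ 2 * ((k : ℝ) ^ 2 * (2 / w))) * Mn c3 gi P' :=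
          mul_le_mul_of_nonneg_right herr hc3.1
      _ = Mn l gi P * Mn l gi P * Mn c3 gi P' + Z1 ^ 2 * ((k : ℝ) ^ 2 * (2 / w)) * Mn c3 gi P' := by ring
      _ ≤ U ^ 2 * U' + Z1 ^ 2 * ((k : ℝ) ^ 2 * (2 / w)) * Z2 := by
          refine add_le_add ?_ (mul_le_mul_of_nonneg_left hD2 herr0)
          rw [sq]
          exact mul_le_mul (mul_le_mul hU hU hA0 hU0) hU' hc3.1 (mul_nonneg hU0 hU0)

theorem MB_X1 (hCE : CE_stmt) (hRZ : RZ_stmt) (hFB : FB_stmt) {k b W R : ℕ} {w ep : ℝ}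
    (hk : 2 ≤ k) (hwR : ⌊w⌋₊ ≤ R) (hep : 0 ≤ ep) (hbig : ∀ p : PS W R, 4 * k + 5 ≤ (p : ℕ))
    (ζ : (PS W R → Option (Fin k)) → ℝ) (m m' : Fin k) (hm : m ≠ m') (l₀ : Finset ℕ → ℝ)
    (hζ : ∀ σ, ζ σ ≠ 0 → ∀ p, σ p ≠ some m ∧ σ p ≠ some m') (hl : BHW ep b w l₀) :
    0 ≤ Ex (fun p : PS W R => mu0 (p : ℝ)) (fun e => FF (prP W R) ζ e ^ 2 *
      SU (prP W R) l₀ (RLS.PP 1 w) m m' e) ∧
    Ex (fun p : PS W R => mu0 (p : ℝ)) (fun e => FF (prP W R) ζ e ^ 2 *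
      SU (prP W R) l₀ (RLS.PP 1 w) m m' e) ≤
      (1 + ep) * ((∏ p ∈ PS W ⌊w⌋₊, (1 - 2 / (p : ℝ))) * QF (prP W R) ζ) := by
  have hbigR : ∀ p : PS W R, (4 : ℝ) * k + 5 ≤ ((p : ℕ) : ℝ) := fun p => by
    exact_mod_cast hbig p
  have hk0 : (2 : ℝ) ≤ k := by exact_mod_cast hk
  have hmu : ∀ (p : PS W R) (x : Option (Fin k)), 0 ≤ mu0 ((p : ℕ) : ℝ) x := by
    intro p x
    have h1 := hbigR p
    rcases x with _ | i
    · simp only [mu0]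
      rw [sub_nonneg, div_le_one (by linarith)]
      linarith
    · simp only [mu0]
      exact div_nonneg zero_le_one (by linarith)
  constructor
  · refine MB_Ex0 _ hmu _ fun e => mul_nonneg (sq_nonneg _) ?_
    exact MB_SU0 _ l₀ _ m m' hl.pos e
  · have h1 := hCE _ k (prP W R) (fun p : PS W R => mu0 (p : ℝ)) m m'
      (fun e => FF (prP W R) ζ e ^ 2) l₀ (RLS.PP 1 w) (fun n => 2 / ((n : ℝ) - k + 2)) ep
      Subtype.val_injective hm hmu (fun p => by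
        have h1 := hbigR p
        simp only [mu0]
        rw [sub_pos, div_lt_one (by linarith)]
        linarith) hep (fun e => sq_nonneg _) (fun p => by
        have h1 := hbigR p
        simp only [mu0]
        have h2 : ((p : ℕ) : ℝ) ≠ 0 := by
          intro h
          rw [h] at h1
          linarith
        have h3 : ((p : ℕ) : ℝ) - k + 2 ≠ 0 := by
          intro h
          linarith
        field_simp
        ring) (fun Q hQ hQ' => by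
        refine hl.upp Q hQ _ fun n hn => ?_
        obtain ⟨p, -, hp⟩ := mem_image.1 (hQ' hn)
        have h1 := hbigR p
        have h2 : ((p : ℕ) : ℝ) = n := by rw [← hp]
        rw [h2] at h1
        refine ⟨div_nonneg (by norm_num) (by linarith), ?_, ?_⟩
        · rw [div_le_div_iff₀ (by linarith) (by norm_num)]
          linarith
        · rw [div_le_div_iff₀ (by linarith) (by linarith)]
          linarith)
    have h2 : (fun e => FF (prP W R) ζ (rem2 m m' e) ^ 2 * SU (prP W R) l₀ (RLS.PP 1 w) m m' e) =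
        fun e => FF (prP W R) ζ e ^ 2 * SU (prP W R) l₀ (RLS.PP 1 w) m m' e := by
      funext e
      rw [hRZ _ k (prP W R) m m' ζ hζ e]
    rw [h2] at h1
    have h3 := hFB _ k (prP W R) m m' (univ.filter fun p => prP W R p ∈ RLS.PP 1 w) ζ hm
      (fun p => by
        have := hbig p
        show 9 ≤ (p : ℕ) ∧ 2 * k + 2 ≤ (p : ℕ)
        omega) hζ
    rw [MB_filt hwR (fun n => 1 - 2 / (n : ℝ))] at h3
    exact h1.trans (mul_le_mul_of_nonneg_left h3 (by linarith))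

theorem MB (h1 : EV_stmt) (h2 : IN_stmt) (h3 : CE_stmt) (h4 : RZ_stmt) (h5 : FB_stmt)
    (h6 : PD_stmt) (h7 : QB_stmt) (h8 : XE_stmt) : MB_stmt := by
  intro k b D₀ W δ ep hk hδ hδ8 hep hep1 hW hD hsm
  obtain ⟨b1, hb1⟩ := MB_PD h6 k
  obtain ⟨b2, hb2⟩ := MB_PD h6 (36 * k)
  obtain ⟨b3, hb3⟩ := MB_PD h6 (9 * k)
  obtain ⟨b4, hb4⟩ := MB_PD h6 (2 * k + 8)
  obtain ⟨b5, hb5⟩ := MB_PD h6 1
  -- conditions on `a`: `exp (δ a) ≥ max 4 W`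
  refine ⟨47 * k + 39, max (max (max b1 b2) (max b3 b4)) (max (max b5 (652 * (k : ℝ) ^ 2))
    (max 1 ((W + 4) / δ))), ?_⟩
  intro a ha R hR ζ m m' l₀ l P P' U U' hm hζ hζ' hl₀ hP hP' hl1 hl0 hU hU'
  have ha1 : b1 ≤ a := le_trans (le_trans (le_max_left _ _) (le_max_left _ _))
    (le_trans (le_max_left _ _) ha)
  have ha2 : b2 ≤ a := le_trans (le_trans (le_max_right _ _) (le_max_left _ _))
    (le_trans (le_max_left _ _) ha)
  have ha3 : b3 ≤ a := le_trans (le_trans (le_max_left _ _) (le_max_right _ _))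
    (le_trans (le_max_left _ _) ha)
  have ha4 : b4 ≤ a := le_trans (le_trans (le_max_right _ _) (le_max_right _ _))
    (le_trans (le_max_left _ _) ha)
  have ha5 : b5 ≤ a := le_trans (le_trans (le_max_left _ _) (le_max_left _ _))
    (le_trans (le_max_right _ _) ha)
  have hak : 652 * (k : ℝ) ^ 2 ≤ a := le_trans (le_trans (le_max_right _ _) (le_max_left _ _))
    (le_trans (le_max_right _ _) ha)
  have ha0 : 1 ≤ a := le_trans (le_trans (le_max_left _ _) (le_max_right _ _))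
    (le_trans (le_max_right _ _) ha)
  have haW : (W + 4) / δ ≤ a := le_trans (le_trans (le_max_right _ _) (le_max_right _ _))
    (le_trans (le_max_right _ _) ha)
  obtain ⟨w, hw⟩ : ∃ w, w = Real.exp (δ * a) := ⟨_, rfl⟩
  have hWw4 : (W : ℝ) + 4 ≤ w := by
    have e1 : (W : ℝ) + 4 ≤ δ * a := by
      rw [div_le_iff₀ hδ] at haW
      linarith
    have e2 := Real.add_one_le_exp (δ * a)
    rw [hw]
    linarith
  have hW0 : (0 : ℝ) < W := by exact_mod_cast hW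
  have hw4 : 4 ≤ w := by linarith
  have hWw : (W : ℝ) ≤ w := by linarith
  have hw8 : w ≤ Real.exp (a / 8) := by
    rw [hw]
    refine Real.exp_le_exp.2 ?_
    nlinarith
  have hwR : ⌊w⌋₊ ≤ R := by
    rw [hR]
    refine Nat.floor_le_floor (hw8.trans (Real.exp_le_exp.2 ?_))
    linarith
  have hbig : ∀ p : PS W R, 4 * k + 5 ≤ (p : ℕ) := fun p => MB_big hD hsm p
  have hbigR : ∀ p : PS W R, (4 : ℝ) * k + 5 ≤ ((p : ℕ) : ℝ) := fun p => by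
    exact_mod_cast hbig p
  have hk0 : (0 : ℝ) ≤ k := Nat.cast_nonneg k
  rw [← hw] at hl₀ hP ⊢
  have hone : ∀ (v z : ℝ) (n : ℕ), n ∈ RLS.PP v z → 1 ≤ n := fun v z n hn =>
    (MB_PP.1 hn).2.1.one_lt.le
  obtain ⟨hY2, hY2'⟩ := MB_prod1 P fun p hp => hone _ _ p (hP hp)
  obtain ⟨hY3, hY3'⟩ := MB_prod1 P' fun p hp => hone _ _ p (hP' hp)
  obtain ⟨E1, E2, E3, E4, E5, E6, -, -⟩ := h8 _ k (prP W R) ζ l₀ l w P P' m m' (a ^ 3)
    (Real.exp a) (w ^ b) (∏ p ∈ P, (p : ℝ)) (∏ p ∈ P', (p : ℝ)) Subtype.val_injective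
    (fun p => by
      have := hbig p
      show 2 ≤ (p : ℕ)
      omega) (by positivity) (Real.one_le_exp (by linarith)) (one_le_pow₀ (by linarith)) hY2 hY3 hζ
    hζ' (fun K _ => ⟨hl₀.le1 K, fun h => (hl₀.lev K h).2⟩)
    (fun K hK => ⟨hl1 K hK, fun _ => hY2' K hK⟩) (fun K hK _ => hY3' K hK)
  obtain ⟨g1, g2, g3⟩ := MB_X2 h1 h2 hw4 hw8 hWw hW hR (by linarith) hbig l m m' hm P P' U U'
    (a ^ (k + 1)) (a ^ (1 + 1)) _ _ hP hP' hl0 hU hU' (hb1 a ha1 W R hR) (hb5 a ha5 W R hR) E2 E3 E4 E5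
  obtain ⟨f1, f2⟩ := MB_X1 h3 h4 h5 hk hwR hep hbig ζ m m' hm l₀ (fun σ hσ => (hζ' σ hσ).2) hl₀
  obtain ⟨q1, q2⟩ := h7 _ k (prP W R) (a ^ 3) ζ (fun p => by
    have := hbig p
    show 5 ≤ (p : ℕ)
    omega) (by positivity) hζ
  have hIN := h2 _ k (prP W R) _ _ _ 1 36 9 _ _ _ _ (fun p : PS W R => mu0 (p : ℝ))
    (fun p : PS W R => 1 / (((p : ℕ) : ℝ) - 1)) (univ.filter fun p : PS W R => w < ((p : ℕ) : ℝ))
    (fun p => MB_mass _) (fun p i => by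
      have e1 := hbigR p
      simp only [mu0]
      exact ⟨div_nonneg zero_le_one (by linarith),
        one_div_le_one_div_of_le (by linarith) (by linarith)⟩) (by positivity) zero_le_one E1 E6 (by
      rintro p i j e1 ⟨e2, e3⟩
      have e4 : w < ((prP W R p : ℕ) : ℝ) := by
        rcases mem_union.1 e3 with e5 | e5
        · exact (MB_PP.1 (hP e5)).2.2
        · exact lt_of_le_of_lt hw8 (MB_PP.1 (hP' e5)).2.2
      refine ⟨?_, mem_filter.2 ⟨mem_univ _, e4⟩⟩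
      rcases e1 with e1 | e1
      · rcases e2 with e2 | e2
        · rw [e2]
          exact e1.1
        · rw [e2]
          exact e1.2
      · exfalso
        have e5 := (MB_PP.1 e1.2).1
        have e6 : ((prP W R p : ℕ) : ℝ) ≤ w := (Nat.le_floor_iff (by linarith)).1 e5
        linarith)
  have hS : ∑ p ∈ univ.filter (fun p : PS W R => w < ((p : ℕ) : ℝ)),
      (1 / (((p : ℕ) : ℝ) - 1)) ^ 2 ≤ 2 / w := by
    have e1 := MB_sum w hw4 ((univ.filter (fun p : PS W R => w < ((p : ℕ) : ℝ))).image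
      (fun p : PS W R => (p : ℕ))) (by
        intro n hn
        obtain ⟨p, hp, rfl⟩ := mem_image.1 hn
        exact (mem_filter.1 hp).2)
    rwa [sum_image (fun p _ q _ h => Subtype.ext h)] at e1
  have hnn : ∀ h : ℕ, 0 ≤ ∏ p : PS W R, (1 + (h : ℝ) / (((p : ℕ) : ℝ) - 1)) := fun h =>
    prod_nonneg fun p _ => by
      have e1 := hbigR p
      have e2 : 0 ≤ (h : ℝ) / (((p : ℕ) : ℝ) - 1) := div_nonneg (Nat.cast_nonneg h) (by linarith)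
      linarith
  have hprod : ∀ c : ℕ, ∏ p : PS W R, (1 + (k : ℝ) * ((c : ℕ) : ℝ) * (1 / (((p : ℕ) : ℝ) - 1))) =
      ∏ p : PS W R, (1 + ((c * k : ℕ) : ℝ) / (((p : ℕ) : ℝ) - 1)) := fun c =>
    prod_congr rfl fun p _ => by push_cast; ring
  have hsum : ∑ p ∈ univ.filter (fun p : PS W R => w < ((p : ℕ) : ℝ)),
      ((k : ℝ) * ((36 : ℕ) : ℝ) * (1 / (((p : ℕ) : ℝ) - 1))) *
        ((k : ℝ) * ((9 : ℕ) : ℝ) * (1 / (((p : ℕ) : ℝ) - 1))) =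
      324 * (k : ℝ) ^ 2 * ∑ p ∈ univ.filter (fun p : PS W R => w < ((p : ℕ) : ℝ)),
        (1 / (((p : ℕ) : ℝ) - 1)) ^ 2 := by
    rw [mul_sum]
    exact sum_congr rfl fun p _ => by push_cast; ring
  have hw0 : 0 < w := by linarith
  have herr : Ex (fun p : PS W R => mu0 (p : ℝ)) (XB (prP W R) ζ l₀ l w P P' m m') ≤
      Ex (fun p : PS W R => mu0 (p : ℝ)) (fun e => FF (prP W R) ζ e ^ 2 *
        SU (prP W R) l₀ (RLS.PP 1 w) m m' e) *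
      Ex (fun p : PS W R => mu0 (p : ℝ)) (fun e => SU (prP W R) l P m m e *
        SU (prP W R) l P m' m' e * SU (prP W R) c3 P' m' m' e) +
      (a ^ 3) ^ 2 * (a ^ (k + 1)) ^ 2 * 1 * a ^ (36 * k + 1) * a ^ (9 * k + 1) *
        (324 * (k : ℝ) ^ 2 * (2 / w)) := by
    have e1 := (abs_le.1 hIN).2
    rw [hprod 36, hprod 9, hsum] at e1
    have e2 : (a ^ 3) ^ 2 * (∏ p : PS W R, (1 + (k : ℝ) / (((prP W R p : ℕ) : ℝ) - 1))) ^ 2 * 1 *
        (∏ p : PS W R, (1 + ((36 * k : ℕ) : ℝ) / (((p : ℕ) : ℝ) - 1))) *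
        (∏ p : PS W R, (1 + ((9 * k : ℕ) : ℝ) / (((p : ℕ) : ℝ) - 1))) *
        (324 * (k : ℝ) ^ 2 * ∑ p ∈ univ.filter (fun p : PS W R => w < ((p : ℕ) : ℝ)),
        (1 / (((p : ℕ) : ℝ) - 1)) ^ 2) ≤
        (a ^ 3) ^ 2 * (a ^ (k + 1)) ^ 2 * 1 * a ^ (36 * k + 1) * a ^ (9 * k + 1) *
        (324 * (k : ℝ) ^ 2 * (2 / w)) := by
      have c1 := hb1 a ha1 W R hR
      have c2 := hb2 a ha2 W R hR
      have c3 := hb3 a ha3 W R hR
      have n1 := hnn k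
      have n2 := hnn (36 * k)
      have n3 := hnn (9 * k)
      have n4 : 0 ≤ ∑ p ∈ univ.filter (fun p : PS W R => w < ((p : ℕ) : ℝ)),
        (1 / (((p : ℕ) : ℝ) - 1)) ^ 2 := sum_nonneg fun _ _ => sq_nonneg _
      have c4 : (∏ p : PS W R, (1 + (k : ℝ) / (((prP W R p : ℕ) : ℝ) - 1))) ^ 2 ≤
          (a ^ (k + 1)) ^ 2 := pow_le_pow_left₀ n1 c1 2
      have c5 : 324 * (k : ℝ) ^ 2 * ∑ p ∈ univ.filter (fun p : PS W R => w < ((p : ℕ) : ℝ)),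
        (1 / (((p : ℕ) : ℝ) - 1)) ^ 2 ≤ 324 * (k : ℝ) ^ 2 * (2 / w) :=
        mul_le_mul_of_nonneg_left hS (by positivity)
      have d0 : (0 : ℝ) ≤ (a ^ 3) ^ 2 := by positivity
      have d1 : (a ^ 3) ^ 2 * (∏ p : PS W R, (1 + (k : ℝ) / (((prP W R p : ℕ) : ℝ) - 1))) ^ 2 * 1 ≤
          (a ^ 3) ^ 2 * (a ^ (k + 1)) ^ 2 * 1 := by
        rw [mul_one, mul_one]
        exact mul_le_mul_of_nonneg_left c4 d0
      have d2 : (a ^ 3) ^ 2 * (∏ p : PS W R, (1 + (k : ℝ) / (((prP W R p : ℕ) : ℝ) - 1))) ^ 2 * 1 *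
          (∏ p : PS W R, (1 + ((36 * k : ℕ) : ℝ) / (((p : ℕ) : ℝ) - 1))) ≤
          (a ^ 3) ^ 2 * (a ^ (k + 1)) ^ 2 * 1 * a ^ (36 * k + 1) :=
        mul_le_mul d1 c2 n2 (by positivity)
      have d3 := mul_le_mul d2 c3 n3 (by positivity)
      exact mul_le_mul d3 c5 (mul_nonneg (by positivity) n4) (by positivity)
    have e3 : Ex (fun p : PS W R => mu0 (p : ℝ)) (XB (prP W R) ζ l₀ l w P P' m m') =
        Ex (fun p : PS W R => mu0 (p : ℝ)) (fun e => FF (prP W R) ζ e ^ 2 *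
        SU (prP W R) l₀ (RLS.PP 1 w) m m' e * (SU (prP W R) l P m m e *
        SU (prP W R) l P m' m' e * SU (prP W R) c3 P' m' m' e)) := rfl
    rw [e3]
    linarith
  obtain ⟨V, hV⟩ : ∃ V, V = ∏ p ∈ PS W ⌊w⌋₊, (1 - 2 / (p : ℝ)) := ⟨_, rfl⟩
  have hV1 : V ≤ 1 := by
    rw [hV]
    refine prod_le_one (fun p hp => ?_) (fun p hp => ?_)
    · have e1 := (mem_PS.1 hp).2.1.two_le
      have e2 : (2 : ℝ) ≤ p := by exact_mod_cast e1
      rw [sub_nonneg, div_le_one (by linarith)]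
      exact e2
    · have : 0 ≤ 2 / (p : ℝ) := by positivity
      linarith
  rw [← hV] at f2 ⊢
  -- collect the errors
  have hQ : QF (prP W R) ζ ≤ (a ^ 3) ^ 2 * (a ^ (2 * k + 8 + 1)) ^ 2 :=
    q2.trans (mul_le_mul_of_nonneg_left (pow_le_pow_left₀ (hnn (2 * k + 8)) (hb4 a ha4 W R hR) 2)
      (by positivity))
  have hX1 : Ex (fun p : PS W R => mu0 (p : ℝ)) (fun e => FF (prP W R) ζ e ^ 2 *
      SU (prP W R) l₀ (RLS.PP 1 w) m m' e) ≤ 2 * ((a ^ 3) ^ 2 * (a ^ (2 * k + 8 + 1)) ^ 2) := by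
    refine f2.trans ?_
    have e1 : V * QF (prP W R) ζ ≤ 1 * QF (prP W R) ζ := mul_le_mul_of_nonneg_right hV1 q1
    have e2 : (1 + ep) * (V * QF (prP W R) ζ) ≤ (1 + ep) * QF (prP W R) ζ :=
      mul_le_mul_of_nonneg_left (by linarith) (by linarith)
    have e3 : (1 + ep) * QF (prP W R) ζ ≤ 2 * QF (prP W R) ζ :=
      mul_le_mul_of_nonneg_right (by linarith) q1
    linarith
  obtain ⟨X, hX⟩ : ∃ X, X = Ex (fun p : PS W R => mu0 (p : ℝ)) (fun e => FF (prP W R) ζ e ^ 2 *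
      SU (prP W R) l₀ (RLS.PP 1 w) m m' e) := ⟨_, rfl⟩
  obtain ⟨Y, hY⟩ : ∃ Y, Y = Ex (fun p : PS W R => mu0 (p : ℝ)) (fun e => SU (prP W R) l P m m e *
      SU (prP W R) l P m' m' e * SU (prP W R) c3 P' m' m' e) := ⟨_, rfl⟩
  rw [← hX] at f1 f2 hX1 herr
  rw [← hY] at g1 g3 herr
  have e5 : X * Y ≤ X * (U ^ 2 * U') + X * ((a ^ (k + 1)) ^ 2 * ((k : ℝ) ^ 2 * (2 / w)) * a ^ (1 + 1)) := by
    rw [← mul_add]
    exact mul_le_mul_of_nonneg_left g3 f1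
  have e6 : X * (U ^ 2 * U') ≤ (1 + ep) * V * QF (prP W R) ζ * (U ^ 2 * U') := by
    rw [mul_assoc (1 + ep)]
    exact mul_le_mul_of_nonneg_right f2 g2
  have e7 : X * ((a ^ (k + 1)) ^ 2 * ((k : ℝ) ^ 2 * (2 / w)) * a ^ (1 + 1)) ≤
      2 * ((a ^ 3) ^ 2 * (a ^ (2 * k + 8 + 1)) ^ 2) *
        ((a ^ (k + 1)) ^ 2 * ((k : ℝ) ^ 2 * (2 / w)) * a ^ (1 + 1)) :=
    mul_le_mul_of_nonneg_right hX1 (by positivity)
  have e8 : 2 * ((a ^ 3) ^ 2 * (a ^ (2 * k + 8 + 1)) ^ 2) *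
        ((a ^ (k + 1)) ^ 2 * ((k : ℝ) ^ 2 * (2 / w)) * a ^ (1 + 1)) =
      4 * (k : ℝ) ^ 2 * a ^ (6 * k + 28) / w := by
    have : a ^ (6 * k + 28) = (a ^ 3) ^ 2 * (a ^ (2 * k + 8 + 1)) ^ 2 * (a ^ (k + 1)) ^ 2 *
        a ^ (1 + 1) := by ring
    rw [this]
    field_simp
    ring
  have e9 : (a ^ 3) ^ 2 * (a ^ (k + 1)) ^ 2 * 1 * a ^ (36 * k + 1) * a ^ (9 * k + 1) *
        (324 * (k : ℝ) ^ 2 * (2 / w)) = 648 * (k : ℝ) ^ 2 * a ^ (47 * k + 10) / w := by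
    have : a ^ (47 * k + 10) = (a ^ 3) ^ 2 * (a ^ (k + 1)) ^ 2 * 1 * a ^ (36 * k + 1) *
        a ^ (9 * k + 1) := by ring
    rw [this]
    field_simp
    ring
  have e10 : 4 * (k : ℝ) ^ 2 * a ^ (6 * k + 28) / w + 648 * (k : ℝ) ^ 2 * a ^ (47 * k + 10) / w ≤
      a ^ (47 * k + 39) * Real.exp (-(δ * a)) := by
    rw [Real.exp_neg, ← hw, ← div_eq_mul_inv, ← add_div]
    refine div_le_div_of_nonneg_right ?_ hw0.le
    have e11 : a ^ (6 * k + 28) ≤ a ^ (47 * k + 38) := pow_le_pow_right₀ ha0 (by omega)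
    have e12 : a ^ (47 * k + 10) ≤ a ^ (47 * k + 38) := pow_le_pow_right₀ ha0 (by omega)
    calc 4 * (k : ℝ) ^ 2 * a ^ (6 * k + 28) + 648 * (k : ℝ) ^ 2 * a ^ (47 * k + 10)
        ≤ 4 * (k : ℝ) ^ 2 * a ^ (47 * k + 38) + 648 * (k : ℝ) ^ 2 * a ^ (47 * k + 38) :=
          add_le_add (mul_le_mul_of_nonneg_left e11 (by positivity))
            (mul_le_mul_of_nonneg_left e12 (by positivity))
      _ = 652 * (k : ℝ) ^ 2 * a ^ (47 * k + 38) := by ring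
      _ ≤ a * a ^ (47 * k + 38) := mul_le_mul_of_nonneg_right hak (by positivity)
      _ = a ^ (47 * k + 39) := by ring
  rw [e8] at e7
  rw [e9] at herr
  linarith

end Pool.Agent.MK
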